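import Pool.Agent.H38.AT.Targets
import Pool.Agent.H82.TG.Sel
import Pool.Agent.H33.AE.N5

/-!
# The sharp exponent: the row COV
-/

set_option autoImplicit false

open Pool.Agent.H38.AE.Statement (Admissible radical)
open Pool.Agent.H38.PS (pd)
open Pool.Agent.H38.RB (tp)
open Pool.Agent.H38.AE (RR rad NT NJ Adm)
open Pool.Agent.H38.AB (Nf Lo)
open Pool.Agent.H23.AF (w5)
open Pool.Agent.H38.AT

namespace Pool.Agent.H69.AT

lemma RR_pos (y : ℤ) : 1 ≤ RR y := by
  unfold RR rad
  have h : 0 < ∏ p ∈ y.natAbs.primeFactors, p :=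
    Finset.prod_pos fun p hp => (Nat.prime_of_mem_primeFactors hp).pos
  exact_mod_cast h

lemma log_RR (y : ℤ) : Real.log (RR y) = ∑ p ∈ y.natAbs.primeFactors, Real.log p := by
  unfold RR rad
  push_cast
  rw [Real.log_prod]
  intro p hp
  have := (Nat.prime_of_mem_primeFactors hp).pos
  positivity

lemma log_abs {y : ℤ} : Real.log (y.natAbs : ℝ) =
    ∑ p ∈ y.natAbs.primeFactors, (y.natAbs.factorization p : ℝ) * Real.log p := by
  rw [Real.log_nat_eq_sum_factorization]
  rfl

/-- one entry -/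
lemma entry (hCVE : T_CVE) {n H : ℕ} (hn : 3 ≤ n) {x : Fin n → ℤ} (hx : x ∈ Adm n H) {ε c X : ℝ}
    (hX : 1 < X) (hε : 0 < ε) (hc : 0 < c) (hc1 : c ≤ ε / (10 * n)) (hc2 : c ≤ 1 / (200 * n ^ 2))
    (hW : ∀ l, Real.log (RR (x l)) ≤ (1 / (n : ℝ) + c) * Real.log X) (k : Fin n)
    (hk : (1 / (n : ℝ) + ε / 2) * Real.log X ≤ Real.log ((x k).natAbs : ℝ)) :
    x ∈ NW n H (4 * X ^ (1 - 1 / (n : ℝ) - c)) ∨
      ∃ p ∈ (x k).natAbs.primeFactors, 2 ≤ (x k).natAbs.factorization p ∧
        (1 / (n : ℝ) - 1 / (10 * n)) * Real.log X ≤ Real.log p := by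
  have hL : 0 < Real.log X := Real.log_pos hX
  have hn0 : (0 : ℝ) < n := by positivity
  have hn3 : (3 : ℝ) ≤ n := by exact_mod_cast hn
  obtain ⟨L, hLdef⟩ : ∃ L : ℝ, L = Real.log X := ⟨_, rfl⟩
  rw [← hLdef] at hL hk hW ⊢
  -- the constants
  have k1 : 10 * n * c ≤ ε := by
    rw [le_div_iff₀ (by positivity)] at hc1
    linarith
  have k2 : 200 * n ^ 2 * c ≤ 1 := by
    rw [le_div_iff₀ (by positivity)] at hc2
    linarith
  have k3 : 30 * c ≤ ε := by nlinarith
  have k4 : 600 * (n * c) ≤ 1 := by nlinarith [mul_pos hn0 hc]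
  set T := (x k).natAbs.primeFactors with hT
  have hsum1 : ∑ p ∈ T, Real.log p ≤ (1 / (n : ℝ) + c) * L := by
    rw [← log_RR]
    exact hW k
  have hsum2 : (1 / (n : ℝ) + ε / 2) * L ≤
      ∑ p ∈ T, ((x k).natAbs.factorization p : ℝ) * Real.log p := by
    rw [← log_abs]
    exact hk
  -- the weights
  have hwsum : ∀ f : ℕ → ℝ, ∀ G : Finset ℕ, ∑ p ∈ G, f p * ((n / 3) * (Real.log p / L)) =
      (n / 3) * ((∑ p ∈ G, f p * Real.log p) / L) := by
    intro f G
    rw [Finset.sum_div, Finset.mul_sum]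
    refine Finset.sum_congr rfl fun p _ => ?_
    ring
  have hwsum' : ∀ G : Finset ℕ, ∑ p ∈ G, ((n / 3) * (Real.log p / L)) =
      (n / 3) * ((∑ p ∈ G, Real.log p) / L) := by
    intro G
    rw [Finset.sum_div, Finset.mul_sum]
  have hsel := Pool.Agent.H82.TG.sel T (fun p => (n / 3) * (Real.log p / L))
    (fun p => (x k).natAbs.factorization p) (1 / 30) (n * c / 6) (n / 3 * (ε / 2 - c))
    (fun p hp => by
      have h1 : 0 ≤ Real.log p := Real.log_natCast_nonneg p
      positivity)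
    (fun p hp => by
      have h1 := (Nat.prime_of_mem_primeFactors hp)
      have h2 := Nat.dvd_of_mem_primeFactors hp
      have h3 : (x k).natAbs ≠ 0 := (Nat.mem_primeFactors.1 hp).2.2
      exact h1.factorization_pos_of_dvd h3 h2)
    (by norm_num) le_rfl (by positivity) (by linarith)
    (by nlinarith) (by
      rw [hwsum', hwsum fun p => ((x k).natAbs.factorization p : ℝ)]
      have h1 : (∑ p ∈ T, Real.log p) / L ≤ 1 / (n : ℝ) + c := by
        rw [div_le_iff₀ hL]
        exact hsum1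
      have h2 : 1 / (n : ℝ) + ε / 2 ≤
          (∑ p ∈ T, ((x k).natAbs.factorization p : ℝ) * Real.log p) / L := by
        rw [le_div_iff₀ hL]
        exact hsum2
      have h3 : (∑ p ∈ T, Real.log p) / L + (ε / 2 - c) ≤
          (∑ p ∈ T, ((x k).natAbs.factorization p : ℝ) * Real.log p) / L := by linarith
      calc (n / 3) * ((∑ p ∈ T, Real.log p) / L) + n / 3 * (ε / 2 - c) =
          (n / 3) * ((∑ p ∈ T, Real.log p) / L + (ε / 2 - c)) := by ring
        _ ≤ _ := mul_le_mul_of_nonneg_left h3 (by positivity))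
  rcases hsel with ⟨G, hG, g', γ', hg', hγ', e1, e2, e3, e4⟩ | ⟨p, hp, hv, hp2⟩
  · left
    rw [hwsum'] at hg'
    rw [hwsum fun p => ((x k).natAbs.factorization p : ℝ)] at hγ'
    obtain ⟨g, hg⟩ : ∃ g : ℝ, g = (∑ p ∈ G, Real.log p) / L := ⟨_, rfl⟩
    obtain ⟨γ, hγ⟩ : ∃ γ : ℝ, γ =
      (∑ p ∈ G, ((x k).natAbs.factorization p : ℝ) * Real.log p) / L := ⟨_, rfl⟩
    rw [← hg] at hg'
    rw [← hγ] at hγ'
    -- two other indices
    obtain ⟨i, hik⟩ : ∃ i : Fin n, i ≠ k := by
      have : Nontrivial (Fin n) := Fin.nontrivial_iff_two_le.2 (by omega)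
      exact exists_ne k
    obtain ⟨j, hj⟩ : ∃ j : Fin n, j ∉ ({i, k} : Finset (Fin n)) := by
      by_contra hcon
      push Not at hcon
      have h1 : (Finset.univ : Finset (Fin n)) ⊆ {i, k} := fun j _ => hcon j
      have h2 := Finset.card_le_card h1
      have h3 := Finset.card_le_two (a := i) (b := k)
      rw [Finset.card_univ, Fintype.card_fin] at h2
      omega
    rw [Finset.mem_insert, Finset.mem_singleton, not_or] at hj
    obtain ⟨m, hm⟩ : ∃ m : ℝ, m = min ((1 / 30 : ℝ) / 2) (n / 3 * (ε / 2 - c) / 2) := ⟨_, rfl⟩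
    rw [← hm] at e1 e2 e3 e4
    have hm1 : n * ((n - 2) * c) ≤ 3 * m := by
      rw [hm]
      rcases min_choice ((1 / 30 : ℝ) / 2) (n / 3 * (ε / 2 - c) / 2) with h | h
      · rw [h]
        nlinarith
      · rw [h]
        nlinarith
    have key : ∀ t : ℝ, n * t ≤ 2 - 3 * m → t + (n - 3) * (1 / (n : ℝ) + c) ≤
        1 - 1 / (n : ℝ) - c := by
      intro t ht
      have h1 : n * (t + (n - 3) * (1 / (n : ℝ) + c)) ≤ n * (1 - 1 / (n : ℝ) - c) := by
        have h2 : n * (t + (n - 3) * (1 / (n : ℝ) + c)) = n * t + (n - 3) + n * ((n - 3) * c) := by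
          field_simp
          ring
        have h3 : n * (1 - 1 / (n : ℝ) - c) = n - 1 - n * c := by
          field_simp
        rw [h2, h3]
        nlinarith
      exact le_of_mul_le_mul_left h1 hn0
    have hnW : n * (1 / (n : ℝ) + c) = 1 + n * c := by
      field_simp
    refine hCVE n H x i j k X (1 / (n : ℝ) + c) (1 - 1 / (n : ℝ) - c) g γ G hx (Ne.symm hj.1) hik
      hj.2 hX (by positivity) (by rw [← hLdef]; exact hW) hG ?_ ?_ ?_ ?_ ?_ ?_
    · rw [← hLdef, hg]
      field_simp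
    · rw [← hLdef, hγ]
      field_simp
    · have h1 := key (g + (1 / (n : ℝ) + c)) (by rw [mul_add, hnW]; linarith)
      linarith
    · have h1 := key (g + 2 * (1 / (n : ℝ) + c) - γ) (by
        rw [mul_sub, mul_add, mul_left_comm, hnW]; linarith)
      linarith
    · have h1 := key (g + 9 / 5 * (1 / (n : ℝ) + c) - 3 / 5 * γ) (by
        rw [mul_sub, mul_add, mul_left_comm, hnW]; linarith)
      linarith
    · have h1 := key (g + 7 / 5 * (1 / (n : ℝ) + c) - 1 / 5 * γ) (by
        rw [mul_sub, mul_add, mul_left_comm, hnW]; linarith)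
      linarith
  · right
    refine ⟨p, hp, hv, ?_⟩
    have h1 : (1 / 3 - 1 / 30 : ℝ) * (3 / n) < Real.log p / L := by
      have h2 : Real.log p / L = (n / 3 * (Real.log p / L)) * (3 / n) := by
        field_simp
      rw [h2]
      exact mul_lt_mul_of_pos_right hp2 (by positivity)
    have h3 : (1 / 3 - 1 / 30 : ℝ) * (3 / n) = 1 / (n : ℝ) - 1 / (10 * n) := by
      field_simp
      ring
    rw [h3, lt_div_iff₀ hL] at h1
    exact h1.le

theorem pf_COV (hCVE : T_CVE) (hCVJ : T_CVJ) : T_COV := by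
  intro n ε A hn hε hA
  have hn0 : (0 : ℝ) < n := by positivity
  have hn3 : (3 : ℝ) ≤ n := by exact_mod_cast hn
  obtain ⟨c, hcdef⟩ : ∃ c : ℝ, c = min (ε / (10 * n)) (1 / (200 * n ^ 2)) := ⟨_, rfl⟩
  have hc : 0 < c := by
    rw [hcdef]
    exact lt_min (by positivity) (by positivity)
  have hc1 : c ≤ ε / (10 * n) := by rw [hcdef]; exact min_le_left _ _
  have hc2 : c ≤ 1 / (200 * n ^ 2) := by rw [hcdef]; exact min_le_right _ _
  refine ⟨c, max 2 ((n : ℝ) ^ (2 / ε)), ⌈2 * n * A⌉₊, hc, le_max_left _ _, ?_⟩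
  intro X H x hX0 hx hpd hht hlog
  have hX2 : 2 ≤ X := (le_max_left _ _).trans hX0
  have hX1 : 1 < X := by linarith
  have hXpos : 0 < X := by linarith
  have hL : 0 < Real.log X := Real.log_pos hX1
  obtain ⟨hx0, hxc, hxs, hxH⟩ := hx
  have hx : x ∈ Adm n H := ⟨hx0, hxc, hxs, hxH⟩
  -- the trivial class
  by_cases hNT : ∃ k : Fin n, ∏ l ∈ Finset.univ.filter (fun l => l ≠ k), RR (x l) ≤
      4 * X ^ (1 - 1 / (n : ℝ) - c)
  · exact Or.inl (Or.inl ⟨hx, hNT⟩)
  push Not at hNT
  have hRR : ∀ l, 0 < RR (x l) := fun l => by linarith [RR_pos (x l)]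
  have hprod : ∏ l, RR (x l) ≤ X := by
    have h1 : ((pd (prn x).primeFactors : ℕ) : ℝ) = ∏ l, RR (x l) := by
      have h2 := Pool.Agent.H33.AE.rad_prod x hxc Finset.univ
      have h3 : pd (prn x).primeFactors = rad (∏ i, x i).natAbs := rfl
      rw [h3, h2]
      unfold RR
      push_cast
      rfl
    rw [← h1]
    exact hpd
  have hW : ∀ l, Real.log (RR (x l)) ≤ (1 / (n : ℝ) + c) * Real.log X := by
    intro k
    have h1 : RR (x k) * ∏ l ∈ Finset.univ.filter (fun l => l ≠ k), RR (x l) ≤ X := by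
      have h2 : Finset.univ.filter (fun l : Fin n => l ≠ k) = Finset.univ.erase k := by
        ext l
        simp
      rw [h2]
      exact (Finset.mul_prod_erase Finset.univ (fun l => RR (x l))
        (Finset.mem_univ k)).le.trans hprod
    have h3 := hNT k
    have h4 : X ^ (1 - 1 / (n : ℝ) - c) ≤
        ∏ l ∈ Finset.univ.filter (fun l => l ≠ k), RR (x l) := by
      have : 0 < X ^ (1 - 1 / (n : ℝ) - c) := Real.rpow_pos_of_pos hXpos _
      linarith
    have h5 : RR (x k) * X ^ (1 - 1 / (n : ℝ) - c) ≤ X :=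
      (mul_le_mul_of_nonneg_left h4 (hRR k).le).trans h1
    have h6 := Real.log_le_log (mul_pos (hRR k) (Real.rpow_pos_of_pos hXpos _)) h5
    rw [Real.log_mul (hRR k).ne' (Real.rpow_pos_of_pos hXpos _).ne', Real.log_rpow hXpos] at h6
    linarith
  -- the large entries
  have hne : (Finset.univ : Finset (Fin n)).Nonempty := ⟨⟨0, by omega⟩, Finset.mem_univ _⟩
  obtain ⟨a, -, ha⟩ := Finset.exists_mem_eq_sup Finset.univ hne fun i => (x i).natAbs
  have ha' : htn x = (x a).natAbs := ha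
  have hmax : ∀ l, (x l).natAbs ≤ htn x := fun l =>
    Finset.le_sup (f := fun i => (x i).natAbs) (Finset.mem_univ l)
  have hapos : 0 < (x a).natAbs := Int.natAbs_pos.2 (hx0 a)
  obtain ⟨b, hba, hb⟩ : ∃ b, b ≠ a ∧ (x a).natAbs ≤ n * (x b).natAbs := by
    by_contra hcon
    push Not at hcon
    have h1 : x a = -∑ l ∈ Finset.univ.erase a, x l := by
      have h2 := Finset.add_sum_erase Finset.univ x (Finset.mem_univ a)
      rw [hxs] at h2
      linarith
    have h2 : (x a).natAbs ≤ ∑ l ∈ Finset.univ.erase a, (x l).natAbs := by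
      rw [h1, Int.natAbs_neg]
      exact Int.natAbs_sum_le _ _
    have h3 : n * ∑ l ∈ Finset.univ.erase a, (x l).natAbs ≤ (n - 1) * (x a).natAbs := by
      rw [Finset.mul_sum]
      have h4 : ∑ l ∈ Finset.univ.erase a, n * (x l).natAbs ≤
          ∑ _l ∈ Finset.univ.erase a, (x a).natAbs :=
        Finset.sum_le_sum fun l hl => (hcon l (Finset.ne_of_mem_erase hl)).le
      rw [Finset.sum_const, Finset.card_erase_of_mem (Finset.mem_univ a), Finset.card_univ,
        Fintype.card_fin, smul_eq_mul] at h4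
      exact h4
    have h4 := Nat.mul_le_mul_left n h2
    have h5 : (n - 1) * (x a).natAbs < n * (x a).natAbs :=
      Nat.mul_lt_mul_of_pos_right (by omega) hapos
    omega
  have hbig : ∀ k, (x a).natAbs ≤ n * (x k).natAbs →
      (1 / (n : ℝ) + ε / 2) * Real.log X ≤ Real.log ((x k).natAbs : ℝ) := by
    intro k hk
    have hkpos : (0 : ℝ) < (x k).natAbs := by exact_mod_cast Int.natAbs_pos.2 (hx0 k)
    rw [ha'] at hht
    have h1 : X ^ (1 / (n : ℝ) + ε) ≤ n * (x k).natAbs := by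
      refine hht.trans ?_
      exact_mod_cast hk
    have h2 : (n : ℝ) ≤ X ^ (ε / 2) := by
      have h3 : (n : ℝ) ^ (2 / ε) ≤ X := (le_max_right _ _).trans hX0
      have h4 := Real.rpow_le_rpow (by positivity) h3 (show 0 ≤ ε / 2 by positivity)
      rwa [← Real.rpow_mul hn0.le, show 2 / ε * (ε / 2) = 1 by field_simp, Real.rpow_one] at h4
    have h5 : X ^ (1 / (n : ℝ) + ε / 2) ≤ (x k).natAbs := by
      have h6 : X ^ (1 / (n : ℝ) + ε) = X ^ (ε / 2) * X ^ (1 / (n : ℝ) + ε / 2) := by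
        rw [← Real.rpow_add hXpos]
        congr 1
        ring
      rw [h6] at h1
      have h7 : X ^ (ε / 2) * X ^ (1 / (n : ℝ) + ε / 2) ≤ X ^ (ε / 2) * (x k).natAbs :=
        h1.trans (mul_le_mul_of_nonneg_right h2 hkpos.le)
      exact le_of_mul_le_mul_left h7 (Real.rpow_pos_of_pos hXpos _)
    have h8 := Real.log_le_log (Real.rpow_pos_of_pos hXpos _) h5
    rwa [Real.log_rpow hXpos] at h8
  have hn1 : 1 ≤ n := by omega
  have ea := entry hCVE hn hx hX1 hε hc hc1 hc2 hW a (hbig a (by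
    calc (x a).natAbs = 1 * (x a).natAbs := (one_mul _).symm
      _ ≤ n * (x a).natAbs := Nat.mul_le_mul_right _ hn1))
  have eb := entry hCVE hn hx hX1 hε hc hc1 hc2 hW b (hbig b hb)
  rcases ea with ea | ⟨p, hp, hvp, hlp⟩
  · exact Or.inl (Or.inr ea)
  rcases eb with eb | ⟨r, hr, hvr, hlr⟩
  · exact Or.inl (Or.inr eb)
  right
  -- the exponents are bounded
  have hexp : ∀ (k : Fin n) (p : ℕ), p ∈ (x k).natAbs.primeFactors →
      (1 / (n : ℝ) - 1 / (10 * n)) * Real.log X ≤ Real.log p →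
      (x k).natAbs.factorization p ≤ ⌈2 * n * A⌉₊ := by
    intro k p hp hlp
    have h1 : ((x k).natAbs.factorization p : ℝ) * Real.log p ≤ A * Real.log X := by
      have h2 : ((x k).natAbs.factorization p : ℝ) * Real.log p ≤ Real.log ((x k).natAbs : ℝ) := by
        rw [log_abs]
        exact Finset.single_le_sum (f := fun p : ℕ =>
          ((x k).natAbs.factorization p : ℝ) * Real.log p)
          (fun q _ => mul_nonneg (Nat.cast_nonneg _) (Real.log_natCast_nonneg q)) hp
      have hkpos : (0 : ℝ) < (x k).natAbs := by exact_mod_cast Int.natAbs_pos.2 (hx0 k)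
      have h3 : Real.log ((x k).natAbs : ℝ) ≤ Real.log (htn x) :=
        Real.log_le_log hkpos (by exact_mod_cast hmax k)
      linarith
    have h4 : (1 / (2 * (n : ℝ))) * Real.log X ≤ Real.log p := by
      refine le_trans (mul_le_mul_of_nonneg_right ?_ hL.le) hlp
      have h5 : 1 / (n : ℝ) - 1 / (10 * n) - 1 / (2 * (n : ℝ)) = 2 / (5 * n) := by
        field_simp
        ring
      have h6 : 0 < 2 / (5 * (n : ℝ)) := by positivity
      linarith
    have h7 : ((x k).natAbs.factorization p : ℝ) * ((1 / (2 * (n : ℝ))) * Real.log X) ≤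
        A * Real.log X := (mul_le_mul_of_nonneg_left h4 (Nat.cast_nonneg _)).trans h1
    have h8 : ((x k).natAbs.factorization p : ℝ) ≤ 2 * n * A := by
      have h9 : ((x k).natAbs.factorization p : ℝ) * ((1 / (2 * (n : ℝ))) * Real.log X) =
          (((x k).natAbs.factorization p : ℝ) / (2 * n)) * Real.log X := by ring
      rw [h9] at h7
      have h10 := le_of_mul_le_mul_right h7 hL
      rw [div_le_iff₀ (by positivity)] at h10
      linarith
    exact_mod_cast h8.trans (Nat.le_ceil _)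
  have hfin := hCVJ n H ⌈2 * n * A⌉₊ x a b X (1 / (n : ℝ) + c) (c + 1 / (10 * n))
    (1 - 1 / (n : ℝ) - c) p r hx (Ne.symm hba) hX1 hW hp hr hvp (hexp a p hp hlp) hvr
    (hexp b r hr hlr) (by
      refine le_trans (le_of_eq ?_) hlp
      ring) (by
      refine le_trans (le_of_eq ?_) hlr
      ring) (by
      have k2 : 200 * n ^ 2 * c ≤ 1 := by
        rw [le_div_iff₀ (by positivity)] at hc2
        linarith
      have h1 : n * (2 * (c + 1 / (10 * (n : ℝ))) + (n - 2) * (1 / (n : ℝ) + c) +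
          2 / 3 * (1 / (n : ℝ) + c)) ≤ n * (1 - 1 / (n : ℝ) - c) := by
        have h2 : n * (2 * (c + 1 / (10 * (n : ℝ))) + (n - 2) * (1 / (n : ℝ) + c) +
          2 / 3 * (1 / (n : ℝ) + c)) = 2 * n * c + 1 / 5 + (n - 2) + n * ((n - 2) * c) + 2 / 3 +
          2 / 3 * (n * c) := by
          field_simp
          ring
        have h3 : n * (1 - 1 / (n : ℝ) - c) = n - 1 - n * c := by
          field_simp
        rw [h2, h3]
        nlinarith [mul_pos hn0 hc]
      exact le_of_mul_le_mul_left h1 hn0)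
  obtain ⟨h1, i', j', a', b', p', r', e', f', q1, q2, q3, q4, q5, q6, q7, q8, q9, q10⟩ := hfin
  refine ⟨h1, i', j', a', b', p', r', e', f', q1, q2, q3, q4, q5, q6, q7, q8, q9, q10.trans ?_⟩
  have : 0 < X ^ (1 - 1 / (n : ℝ) - c) := Real.rpow_pos_of_pos hXpos _
  linarith

end Pool.Agent.H69.AT
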