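import Pool.Agent.H67.AT.Targets
import Pool.Agent.H67.AT.Ser

set_option autoImplicit false

open Finset PowerSeries Pool.Agent.H67.AT

namespace Pool.Agent.H69.AT

section

variable {X E Y : Type} [Fintype X] [DecidableEq X] [Fintype E] [DecidableEq E]
  [Fintype Y] [DecidableEq Y]

theorem wo_nonneg {v : Y → ℝ} (hv : ∀ y, 0 ≤ v y) (o : Option Y) : 0 ≤ wo v o := by
  cases o with
  | none => exact le_rfl
  | some y => exact hv y

theorem ld_rhoE (G : Net X E Y) (v : Y → ℝ) (e : E) : ld v (rhoE G e) = wo v (G.lt e) := by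
  unfold ld rhoE
  cases h : G.lt e with
  | none => simp [wo]
  | some y =>
    simp only [wo]
    rw [Finset.sum_eq_single y]
    · simp
    · intro z _ hz
      rw [if_neg, mul_zero]
      intro h1
      exact hz (Option.some.inj h1).symm
    · intro h1
      exact absurd (mem_univ y) h1

theorem pf_PT0 (hQNN : T_QNN) (hQLO : T_QLO) (hMU0 : T_MU0) (hRTU : T_RTU) : T_PT0 := by
  intro X E Y _ _ _ _ _ _ G k L m g β w₀ good f hβ hw₀ hf hgood N ω hω
  have hrtl : ∀ l x x' y, 0 ≤ rtl G k good β l x x' y := fun l x x' y =>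
    (hRTU X E Y G k good β l x x' y hβ).2.2.1
  have hes : ∀ (τ : Idx X L) (e : E), DNn (es G k good β f τ e) := by
    intro τ e
    cases τ with
    | none => exact DNn.one.add ⟨PNn.zero, PNn.C (hf e)⟩
    | some t =>
      obtain ⟨l, x, x'⟩ := t
      exact DNn.lin (wo_nonneg (fun y => hrtl l x x' y) _)
  have hmk : ∀ (τ : Idx X L) (l : ℕ) (x x' : X), DNn (mks τ l x x') := by
    intro τ l x x'
    cases τ with
    | none => exact DNn.zero
    | some t =>
      obtain ⟨l', A, B⟩ := t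
      show DNn (if l = l' ∧ x = A ∧ x' = B then eps else 0)
      split_ifs
      · exact DNn.eps
      · exact DNn.zero
  have hmk0 : ∀ (τ : Idx X L) (l : ℕ) (x x' : X), coeff 0 (mks τ l x x').fst = 0 := by
    intro τ l x x'
    cases τ with
    | none => simp [mks]
    | some t =>
      obtain ⟨l', A, B⟩ := t
      show coeff 0 (if l = l' ∧ x = A ∧ x' = B then eps else (0 : DS)).fst = 0
      split_ifs
      · simp
      · simp
  have hes0 : ∀ (τ : Idx X L) (e : E), coeff 0 (es G k good β f τ e).fst = 1 := by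
    intro τ e
    cases τ with
    | none =>
      show coeff 0 (1 + TrivSqZeroExt.inr (PowerSeries.C (f e)) : DS).fst = 1
      simp
    | some t =>
      obtain ⟨l, x, x'⟩ := t
      show coeff 0 (lin (wo (rtl G k good β l x x') (G.lt e))).fst = 1
      rw [coeff_lin]
      simp
  have hP : ∀ j < N, 0 < (G.P ^ k ^ 0) (ω j) (ω (j + 1)) := fun j hj =>
    hgood.pos 0 (Nat.zero_le _) _ _ (hω j hj)
  have hP' : ∀ j < N, 0 < G.P (ω j) (ω (j + 1)) := by
    intro j hj
    have := hP j hj
    rwa [pow_zero, pow_one] at this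
  have hrt : ∀ j < N, (stg0 G k good β N ω).rt j = rtl G k good β 0 (ω j) (ω (j + 1)) := by
    intro j hj
    funext y
    have h := (hMU0 X E Y G (ω j) (ω (j + 1)) (hP' j hj)).2.2.2 y
    show ∑ e, mu0 G (ω j) (ω (j + 1)) e * ∑ i : Fin 1, rhoE G e y = _
    simp only [Finset.univ_unique, Finset.sum_const, Finset.card_singleton, one_smul]
    exact h
  refine ⟨?_, ?_, ?_, ?_, ?_, ?_⟩
  · intro τ
    cases τ with
    | none => exact hw₀
    | some t => exact zero_le_one
  · intro τ j _
    exact (hQNN X E Y G k (es G k good β f τ) (mks τ) (hes τ) (hmk τ)).1 0 _ _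
  · intro τ r i
    exact hes τ r
  · intro τ j _ r i _
    exact hes0 τ r
  · intro τ j _
    have e1 : ∀ r : E, (∏ i : Fin 1, (pot0 G k good β f L m w₀ N ω).cc τ r i) =
        es G k good β f τ r := by
      intro r
      simp only [Finset.univ_unique, Finset.prod_singleton]
      rfl
    show DLe (dbl (∑ r, mu0 G (ω j) (ω (j + 1)) r •
      ∏ i : Fin 1, (pot0 G k good β f L m w₀ N ω).cc τ r i)) (dbl (∑ e, mu0 G (ω j) (ω (j + 1)) e •
        es G k good β f τ e) + mks τ 0 (ω j) (ω (j + 1)))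
    simp only [e1]
    exact DLe.add_right (hmk τ _ _ _)
  · intro j hj
    have hj' : j < N := hj
    refine ⟨some (0, ω j, ω (j + 1)), rfl, rfl, ?_, ?_, ?_⟩
    · have h1 : mks (some ((0 : Fin (L + 1)), ω j, ω (j + 1)) : Idx X L) 0 (ω j) (ω (j + 1)) =
          eps := by
        show (if (0 : ℕ) = ((0 : Fin (L + 1)) : ℕ) ∧ ω j = ω j ∧ ω (j + 1) = ω (j + 1) then eps
          else (0 : DS)) = eps
        rw [if_pos ⟨by simp, rfl, rfl⟩]
      show DLe eps (dbl (∑ e, mu0 G (ω j) (ω (j + 1)) e • es G k good β f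
        (some ((0 : Fin (L + 1)), ω j, ω (j + 1)) : Idx X L) e) +
          mks (some ((0 : Fin (L + 1)), ω j, ω (j + 1)) : Idx X L) 0 (ω j) (ω (j + 1)))
      rw [h1]
      refine DLe.add_left (DNn.dbl (DNn.sum fun e _ => (hes _ e).smul ?_))
      exact (hMU0 X E Y G (ω j) (ω (j + 1)) (hP' j hj')).2.1 e
    · intro j' hj'N _
      have hj'N' : j' < N := hj'N
      have hv : ∀ y, 0 ≤ rtl G k good β 0 (ω j) (ω (j + 1)) y := fun y => hrtl _ _ _ y
      have hnn := (hQNN X E Y G k (es G k good β f (some ((0 : Fin (L + 1)), ω j, ω (j + 1)) :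
        Idx X L)) (mks (some ((0 : Fin (L + 1)), ω j, ω (j + 1)) : Idx X L)) (hes _) (hmk _))
      have h0 := hnn.2 (hes0 _) (hmk0 _) 0 (ω j') (ω (j' + 1)) (hP j' hj'N')
      have h1 := hQLO X E Y G k (es G k good β f (some ((0 : Fin (L + 1)), ω j, ω (j + 1)) :
        Idx X L)) (mks (some ((0 : Fin (L + 1)), ω j, ω (j + 1)) : Idx X L))
        (rtl G k good β 0 (ω j) (ω (j + 1))) hv (hes _) (hmk _) (hes0 _) (hmk0 _) (by
          intro e
          show wo _ (G.lt e) ≤ coeff 1 (lin (wo (rtl G k good β ((0 : Fin (L + 1)) : ℕ) (ω j)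
            (ω (j + 1))) (G.lt e))).fst
          rw [coeff_lin]
          simp) 0 (ω j') (ω (j' + 1)) (hP j' hj'N')
      rw [hrt j hj']
      refine DLe.lin_of (hnn.1 0 _ _) h0.ge (le_trans ?_ h1)
      refine Finset.sum_le_sum fun y _ => ?_
      refine mul_le_mul_of_nonneg_left ?_ (hv y)
      exact (hRTU X E Y G k good β 0 (ω j') (ω (j' + 1)) y hβ).2.1
    · intro j' _ r i _
      rw [hrt j hj']
      show DLe (lin (ld (rtl G k good β 0 (ω j) (ω (j + 1))) (rhoE G r)))
        (lin (wo (rtl G k good β ((0 : Fin (L + 1)) : ℕ) (ω j) (ω (j + 1))) (G.lt r)))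
      rw [ld_rhoE]
      exact DLe.refl _

end

end Pool.Agent.H69.AT
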